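import Pool.Agent.W2helper37.DP.Stm2
import Pool.Agent.W2helper11.DP.Dec
import Pool.Agent.W2helper11.DP.Free
import Pool.Agent.W2helper77.DP.Tree
import Pool.Agent.W2helper51.DP.Mas

set_option autoImplicit false

namespace Pool.Agent.W2helper37.DP

open Pool.Agent.H42.Dom Pool.Agent.H30.Dia

theorem ma_no_suslin : Pool.Agent.H57.Aro.MA1 → ¬ ∃ (T : Type) (_ : PartialOrder T), FreeSuslin T :=
  W2helper51.DP.p_mas

theorem diamond_suslin (h : Diamond) : ∃ (T : Type) (_ : PartialOrder T), FreeSuslin T :=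
  W2helper77.DP.p_tree (W2helper11.DP.p_free W2helper11.DPD.p_dec) (exists_tr h False)

end Pool.Agent.W2helper37.DP
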