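import Pool.Agent.W2helper37.DP.Asm
import Pool.Agent.W2helper19.DP.Ccc
import Pool.Agent.W2helper71.DP.Pcc
import Pool.Agent.W2helper51.DP.Sup
import Pool.Agent.W2helper97.DP.Dd
import Pool.Agent.W2helper15.DP.Opm
import Pool.Agent.W2helper52.DP.Ta

set_option autoImplicit false

namespace Pool.Agent.W2helper37.DP

open Set Pool.Agent.H42.Dom

universe u v

theorem main_all :
    (∀ (X : Type u) [TopologicalSpace X],
      (CCC (Fin 2 → X) ∨ Sfin (Fin 2 → X) ∨ SfinD (Fin 2 → X)) →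
        (S1 X → ∀ ι : Type v, S1 (ι → X) ∧ (Nonempty X → S1D (ι → X))) ∧
        (Sfin X → ∀ ι : Type v, Sfin (ι → X) ∧ SfinD (ι → X))) ∧
    ((¬ ∃ (T : Type) (_ : PartialOrder T), FreeSuslin T) →
      ∀ (X : Type u) [TopologicalSpace X], Sfin X → CCC (Fin 2 → X)) ∧
    ((∃ (T : Type) (_ : PartialOrder T), FreeSuslin T) →
      ∃ (X : Type) (_ : TopologicalSpace X), T2Space X ∧
        TopologicalSpace.IsTopologicalBasis {s : Set X | IsClopen s} ∧
        S1 X ∧ ¬ CCC (Fin 2 → X) ∧ ¬ S1 (Fin 2 → X) ∧ ¬ Sfin (Fin 2 → X) ∧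
        ¬ SfinD (Fin 2 → X)) :=
  main W2helper19.DP.p_ccc W2helper71.DP.p_pcc W2helper51.DP.p_sup
    (W2helper52.DP.p_ta W2helper15.DP.p_opm) W2helper97.DP.p_dd

end Pool.Agent.W2helper37.DP
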