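import Pool.Agent.W2helper37.DP.Stm

set_option autoImplicit false

namespace Pool.Agent.W2helper37.DP

open Set Pool.Agent.H42.Dom Pool.Agent.H42.Dirac

universe u v

/-- If the square of `X` satisfies the countable chain condition, then `X` has a countable splitting
family. -/
theorem spl_ex {X : Type u} [TopologicalSpace X] (hc : CCC (Fin 2 → X)) :
    ∃ S : ℕ → Set X, (∀ s, IsOpen (S s)) ∧ Spl S := by
  classical
  by_contra hn
  let Al : Set X → Prop := fun G => IsOpen G ∧ G.Nonempty ∧ ¬ IsPreirreducible G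
  have h1 : ∀ Z : Set (Set X), Z.Countable → (∀ S ∈ Z, IsOpen S) →
      ∃ G, Al G ∧ ∀ S ∈ Z, (G ∩ S).Nonempty → G ⊆ closure S := by
    intro Z hZ hZ'
    obtain ⟨S, hS⟩ := (hZ.insert ∅).exists_eq_range (insert_nonempty _ _)
    have : ¬ Spl S := fun h => hn ⟨S, fun s => by
      rcases (hS ▸ mem_range_self s : S s ∈ insert ∅ Z) with e | e
      exacts [e ▸ isOpen_empty, hZ' _ e], h⟩
    simp only [Spl, not_forall, not_or, not_exists, not_and, not_not] at this
    obtain ⟨G, a, b, c, d⟩ := this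
    refine ⟨G, ⟨a, b, c G le_rfl a b⟩, fun S' hS' => ?_⟩
    obtain ⟨s, rfl⟩ : S' ∈ range S := hS ▸ mem_insert_of_mem _ hS'
    exact d s
  have h2 : ∀ G, ∃ A B, Al G → (A ⊆ G ∧ IsOpen A ∧ A.Nonempty) ∧ (B ⊆ G ∧ IsOpen B ∧ B.Nonempty) ∧
      Disjoint A B := by
    intro G
    by_cases hG : Al G
    · obtain ⟨a, b, c⟩ := hG
      simp only [IsPreirreducible, not_forall] at c
      obtain ⟨A, B, c1, c2, c3, c4, c5⟩ := c
      exact ⟨G ∩ A, G ∩ B, fun _ => ⟨⟨inter_subset_left, a.inter c1, c3⟩, ⟨inter_subset_left,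
        a.inter c2, c4⟩, disjoint_left.2 fun x x1 x2 => c5 ⟨x, x1.1, x1.2, x2.2⟩⟩⟩
    · exact ⟨∅, ∅, fun h => absurd h hG⟩
  choose s0 s1 hs using h2
  obtain ⟨f, hf⟩ := rec_u (σ := Set X) (fun α g G => Al G ∧ ∀ β, ∀ S ∈ ({g β, s0 (g β), s1 (g β)} :
      Set (Set X)), (G ∩ S).Nonempty → G ⊆ closure S) (by
    intro α g hg
    have := (Iio_count α).to_subtype
    obtain ⟨G, a, b⟩ := h1 (⋃ β, {g β, s0 (g β), s1 (g β)})
      (countable_iUnion fun β => (toFinite _).countable) (by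
        intro S hS
        obtain ⟨β, hβ⟩ := mem_iUnion.1 hS
        rcases hβ with rfl | rfl | rfl
        exacts [(hg β).1.1, (hs _ (hg β).1).1.2.1, (hs _ (hg β).1).2.1.2.1])
    exact ⟨G, a, fun β S hS => b S (mem_iUnion.2 ⟨β, hS⟩)⟩)
  let B : W → Set (Fin 2 → X) := fun α => univ.pi ![s0 (f α), s1 (f α)]
  have hB : ∀ α, IsOpen (B α) ∧ (B α).Nonempty := fun α =>
    ⟨isOpen_set_pi finite_univ fun i _ => by
      fin_cases i
      exacts [(hs _ (hf α).1).1.2.1, (hs _ (hf α).1).2.1.2.1],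
      univ_pi_nonempty_iff.2 fun i => by
        fin_cases i
        exacts [(hs _ (hf α).1).1.2.2, (hs _ (hf α).1).2.1.2.2]⟩
  have hdis : ∀ α β, β < α → Disjoint (B α) (B β) := by
    intro α β h
    rw [disjoint_left]
    intro x h1 h2
    have a0 : x 0 ∈ s0 (f α) := h1 0 trivial
    have a1 : x 1 ∈ s1 (f α) := h1 1 trivial
    have b0 : x 0 ∈ s0 (f β) := h2 0 trivial
    have b1 : x 1 ∈ s1 (f β) := h2 1 trivial
    have e := (hf α).2 ⟨β, h⟩ _ (Or.inr (Or.inl rfl)) ⟨x 0, (hs _ (hf α).1).1.1 a0, b0⟩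
    obtain ⟨y, y1, y2⟩ := mem_closure_iff.1 (e ((hs _ (hf α).1).2.1.1 a1)) _
      (hs _ (hf β).1).2.1.2.1 b1
    exact disjoint_left.1 (hs _ (hf β).1).2.2 y2 y1
  have hdis' : ∀ α β, α ≠ β → Disjoint (B α) (B β) := fun α β e =>
    (lt_or_gt_of_ne e).elim (fun h => (hdis β α h).symm) (hdis α β)
  have hinj : Function.Injective B := by
    intro α β e
    by_contra h
    obtain ⟨x, hx⟩ := (hB α).2
    exact disjoint_left.1 (hdis' α β h) hx (e ▸ hx)
  have hr := hc (range B) (by rintro _ ⟨α, rfl⟩; exact hB α) (by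
    rintro _ ⟨α, rfl⟩ _ ⟨β, rfl⟩ hne
    exact hdis' α β fun e => hne (by rw [e]))
  have hW : (univ : Set W).Countable :=
    countable_of_injective_of_countable_image hinj.injOn (by rwa [image_univ])
  obtain ⟨b, hb⟩ := bdd _ hW
  exact lt_irrefl _ (hb b trivial)

end Pool.Agent.W2helper37.DP
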