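import Pool.Agent.W2helper37.DP.Fin
import Pool.Agent.W2helper37.DP.Spl

set_option autoImplicit false

namespace Pool.Agent.W2helper37.DP

open Set Pool.Agent.H42.Dom

universe u v

/-- `S_1(D, D)`: for every sequence of families `𝒟 n` of open sets with dense union there are
`U n ∈ 𝒟 n` with dense union. -/
def S1D (X : Type u) [TopologicalSpace X] : Prop :=
  ∀ 𝒟 : ℕ → Set (Set X), (∀ n, (∀ U ∈ 𝒟 n, IsOpen U) ∧ Dense (⋃₀ 𝒟 n)) →
    ∃ U : ℕ → Set X, (∀ n, U n ∈ 𝒟 n) ∧ Dense (⋃ n, U n)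

/-- `S_fin(D, D)`: the same with finite subsets `F n` of `𝒟 n`. -/
def SfinD (X : Type u) [TopologicalSpace X] : Prop :=
  ∀ 𝒟 : ℕ → Set (Set X), (∀ n, (∀ U ∈ 𝒟 n, IsOpen U) ∧ Dense (⋃₀ 𝒟 n)) →
    ∃ F : ℕ → Set (Set X), (∀ n, F n ⊆ 𝒟 n ∧ (F n).Finite) ∧ Dense (⋃₀ ⋃ n, F n)

lemma sfinD_iff {X : Type u} [TopologicalSpace X] : SfinD X ↔ SelD False X := by
  simp only [SfinD, SelD, Sm, false_imp_iff, and_true]

theorem s1D_of {X : Type u} [TopologicalSpace X] [Nonempty X] (h : SelD True X) : S1D X := by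
  intro 𝒟 h𝒟
  obtain ⟨F, h1, h2⟩ := h 𝒟 h𝒟
  have : ∀ n, ∃ U ∈ 𝒟 n, F n ⊆ {U} := by
    intro n
    rcases ((h1 n).2.2 trivial).eq_empty_or_singleton with e | ⟨U, e⟩
    · obtain ⟨x, U, hU, -⟩ := (h𝒟 n).2.nonempty
      exact ⟨U, hU, by simp [e]⟩
    · exact ⟨U, (h1 n).1 (by simp [e]), e.le⟩
  choose U hU hF using this
  refine ⟨U, hU, h2.mono ?_⟩
  rintro x ⟨V, hV, hx⟩
  obtain ⟨n, hn⟩ := mem_iUnion.1 hV
  exact mem_iUnion.2 ⟨n, (show V = U n from hF n hn) ▸ hx⟩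

/-- `S_fin(D, D)` implies the countable chain condition. -/
theorem ccc_of_selD {X : Type u} [TopologicalSpace X] (h : SelD False X) : CCC X := by
  intro 𝒲 h𝒲 hd
  obtain ⟨F, hF, hF'⟩ := h (fun _ => insert (closure (⋃₀ 𝒲))ᶜ 𝒲) fun _ => ⟨by
    rintro U (rfl | hU)
    exacts [isClosed_closure.isOpen_compl, (h𝒲 U hU).1], by
    rw [dense_iff_inter_open]
    intro G hG ⟨x, hx⟩
    by_cases hm : (G ∩ ⋃₀ 𝒲).Nonempty
    · obtain ⟨y, y1, W, hW, y2⟩ := hm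
      exact ⟨y, y1, W, Or.inr hW, y2⟩
    · exact ⟨x, hx, _, Or.inl rfl, fun hx' => hm (mem_closure_iff.1 hx' G hG hx)⟩⟩
  refine (countable_iUnion fun n => (hF n).2.1.countable).mono fun W hW => ?_
  obtain ⟨y, y1, V, hV, y2⟩ := dense_iff_inter_open.1 hF' W (h𝒲 W hW).1 (h𝒲 W hW).2
  obtain ⟨n, hn⟩ := mem_iUnion.1 hV
  rcases (hF n).1 hn with rfl | hV'
  · exact absurd (subset_closure (mem_sUnion_of_mem y1 hW)) y2
  · have : V = W := by
      by_contra e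
      exact disjoint_left.1 (hd hV' hW e) y2 y1
    exact this ▸ hV

/-- Selection principles for all powers from the countable chain condition of the square. -/
theorem all_pow {b : Prop} (pc : P_CCC.{u}) (pp : P_PCC.{u, v}) (sup : P_SUP.{u, v})
    (ta : P_TA.{u, v}) {X : Type u} [TopologicalSpace X] (h2 : CCC (Fin 2 → X)) (h : Sel b X)
    (ι : Type v) : Sel b (ι → X) := by
  obtain ⟨S, hS, hsp⟩ := spl_ex h2
  have hfin : ∀ k : ℕ, Sel b (Fin k → X) := fun k => pow_sel h hS hsp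
  exact fin_all hfin (pp fun k => pc (sel_weak (hfin k))) sup ta

theorem main (pc : P_CCC.{u}) (pp : P_PCC.{u, v}) (sup : P_SUP.{u, v})
    (ta : P_TA.{u, v}) (dd : P_DD.{max u v}) :
    (∀ (X : Type u) [TopologicalSpace X],
      (CCC (Fin 2 → X) ∨ Sfin (Fin 2 → X) ∨ SfinD (Fin 2 → X)) →
        (S1 X → ∀ ι : Type v, S1 (ι → X) ∧ (Nonempty X → S1D (ι → X))) ∧
        (Sfin X → ∀ ι : Type v, Sfin (ι → X) ∧ SfinD (ι → X))) ∧
    ((¬ ∃ (T : Type) (_ : PartialOrder T), FreeSuslin T) →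
      ∀ (X : Type u) [TopologicalSpace X], Sfin X → CCC (Fin 2 → X)) ∧
    ((∃ (T : Type) (_ : PartialOrder T), FreeSuslin T) →
      ∃ (X : Type) (_ : TopologicalSpace X), T2Space X ∧
        TopologicalSpace.IsTopologicalBasis {s : Set X | IsClopen s} ∧
        S1 X ∧ ¬ CCC (Fin 2 → X) ∧ ¬ S1 (Fin 2 → X) ∧ ¬ Sfin (Fin 2 → X) ∧
        ¬ SfinD (Fin 2 → X)) := by
  refine ⟨fun X _ h => ?_, fun hn X _ h => pc (pos hn (sfin_iff.1 h) 2), ?_⟩
  · have h2 : CCC (Fin 2 → X) := by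
      rcases h with h | h | h
      exacts [h, pc (sfin_iff.1 h), ccc_of_selD (sfinD_iff.1 h)]
    refine ⟨fun h ι => ?_, fun h ι => ?_⟩
    · have hp := all_pow pc pp sup ta h2 (s1_iff.1 h) ι
      exact ⟨s1_iff.2 hp, fun _ => s1D_of (dd hp)⟩
    · have hp := all_pow pc pp sup ta h2 (sfin_iff.1 h) ι
      exact ⟨sfin_iff.2 hp, sfinD_iff.2 (dd hp)⟩
  · rintro ⟨T, _, hT⟩
    let _ := Pool.Agent.H42.Dom.top T
    have h1 : Sel True (Flag T) := s1_iff.1 (sel_tree hT)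
    have h2 : ¬ Sel False (Fin 2 → Flag T) := not_sq hT
    have h3 : ¬ CCC (Fin 2 → Flag T) := fun h => by
      obtain ⟨S, hS, hsp⟩ := spl_ex h
      exact h2 (pow_sel (sel_weak h1) hS hsp)
    exact ⟨Flag T, Pool.Agent.H42.Dom.top T, t2 hT, zerodim hT, sel_tree hT, h3,
      fun h => h2 (sel_weak (s1_iff.1 h)), fun h => h2 (sfin_iff.1 h),
      fun h => h3 (ccc_of_selD (sfinD_iff.1 h))⟩

end Pool.Agent.W2helper37.DP
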