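import Pool.Agent.W2helper37.DP.Stm

set_option autoImplicit false

namespace Pool.Agent.W2helper37.DP

open Set Pool.Agent.H42.Dom

universe u v

lemma hits_dom {X : Type u} [TopologicalSpace X] {ι : Type v} {𝒰 : Set (Set (ι → X))} (h : DOm 𝒰)
    (A : Set ι) : Hits A 𝒰 := by
  intro m s G _ hG
  obtain ⟨U, hU, hh⟩ := h.2.2.2 (range fun a => (s : Set ι).pi (G a)) (finite_range _) (by
    rintro _ ⟨a, rfl⟩
    exact ⟨isOpen_set_pi s.finite_toSet fun i _ => (hG a i).1,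
      ⟨fun i => (hG a i).2.some, fun i _ => (hG a i).2.some_mem⟩⟩)
  refine ⟨U, hU, fun a => ?_⟩
  obtain ⟨x, hx1, hx2⟩ := hh _ ⟨a, rfl⟩
  exact ⟨x, hx1, fun i hi => hx2 i hi⟩

lemma finset_sub {ι : Type v} (B : ℕ → Set ι) (hB : Monotone B) (s : Finset ι)
    (hs : ∀ i ∈ s, i ∈ ⋃ j, B j) : ∃ j, ∀ i ∈ s, i ∈ B j := by
  have : ∀ i ∈ s, ∃ j, i ∈ B j := fun i hi => mem_iUnion.1 (hs i hi)
  choose! f hf using this
  exact ⟨s.sup f, fun i hi => hB (Finset.le_sup hi) (hf i hi)⟩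

theorem fin_all {b : Prop} {X : Type u} [TopologicalSpace X] {ι : Type v}
    (hfin : ∀ k : ℕ, Sel b (Fin k → X)) (hccc : CCC (ι → X)) (sup : P_SUP.{u, v})
    (ta : P_TA.{u, v}) : Sel b (ι → X) := by
  classical
  intro 𝒰 h𝒰
  have hsup := fun U hU => sup hccc U hU
  choose! A hAc hA using hsup
  have h1 : ∀ (n : ℕ) (B : Set ι), B.Countable → ∃ C ⊆ 𝒰 n, C.Countable ∧ Hits B C := by
    intro n B hB
    obtain ⟨F, hF, hF'⟩ := ta hfin B hB (fun _ => 𝒰 n) (fun _ => (h𝒰 n).1)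
      fun _ => hits_dom (h𝒰 n) B
    exact ⟨⋃ j, F j, iUnion_subset fun j => (hF j).1,
      countable_iUnion fun j => (hF j).2.1.countable, hF'⟩
  choose! C hCs hCc hCh using h1
  obtain ⟨Bs, hB0, hBS⟩ : ∃ Bs : ℕ → Set ι, Bs 0 = ∅ ∧
      ∀ j, Bs (j + 1) = Bs j ∪ ⋃ n, ⋃ U ∈ C n (Bs j), A U :=
    ⟨fun j => Nat.rec ∅ (fun _ B => B ∪ ⋃ n, ⋃ U ∈ C n B, A U) j, rfl, fun _ => rfl⟩
  have hBc : ∀ j, (Bs j).Countable := by
    intro j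
    induction j with
    | zero => rw [hB0]; exact countable_empty
    | succ j ih =>
      rw [hBS]
      refine ih.union (countable_iUnion fun n => (hCc n _ ih).biUnion fun U hU => ?_)
      exact hAc U ((h𝒰 n).1 U (hCs n _ ih hU))
  have hBm : Monotone Bs := monotone_nat_of_le_succ fun j => by
    rw [hBS]; exact subset_union_left
  let Ai : Set ι := ⋃ j, Bs j
  have hAi : Ai.Countable := countable_iUnion hBc
  let 𝒱 : ℕ → Set (Set (ι → X)) := fun n => ⋃ j, C n (Bs j)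
  have h𝒱 : ∀ n, 𝒱 n ⊆ 𝒰 n := fun n => iUnion_subset fun j => hCs n _ (hBc j)
  have h𝒱A : ∀ n, ∀ V ∈ 𝒱 n, A V ⊆ Ai := by
    intro n V hV
    obtain ⟨j, hj⟩ := mem_iUnion.1 hV
    refine Subset.trans ?_ (subset_iUnion Bs (j + 1))
    rw [hBS]
    intro i hi
    exact Or.inr (mem_iUnion.2 ⟨n, mem_iUnion₂.2 ⟨V, hj, hi⟩⟩)
  have h𝒱H : ∀ n, Hits Ai (𝒱 n) := by
    intro n m s G hs hG
    obtain ⟨j, hj⟩ := finset_sub Bs hBm s hs
    obtain ⟨V, hV, h⟩ := hCh n (Bs j) (hBc j) m s G hj hG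
    exact ⟨V, mem_iUnion.2 ⟨j, hV⟩, h⟩
  obtain ⟨F, hF, hFH⟩ := ta hfin Ai hAi 𝒱 (fun n V hV => (h𝒰 n).1 V (h𝒱 n hV)) h𝒱H
  refine ⟨F, fun n => ⟨(hF n).1.trans (h𝒱 n), (hF n).2⟩, mk_dom ?_ fun ℱ hℱ hℱ' => ?_⟩
  · intro U hU
    obtain ⟨n, hn⟩ := mem_iUnion.1 hU
    have := h𝒱 n ((hF n).1 hn)
    exact ⟨(h𝒰 n).1 _ this, (h𝒰 n).2.2.1 _ this⟩
  obtain ⟨m, g, -, hg⟩ := hℱ.fin_param
  have hbox : ∀ a, ∃ (s : Finset ι) (G : ι → Set X), (∀ i, IsOpen (G i) ∧ (G i).Nonempty) ∧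
      {x | ∀ i ∈ s, x i ∈ G i} ⊆ g a ∧ ∀ i ∉ s, G i = univ := by
    intro a
    obtain ⟨ho, x, hx⟩ := hℱ' (g a) (hg ▸ mem_range_self a)
    obtain ⟨s, G, h1, h2⟩ := isOpen_pi_iff.1 ho x hx
    refine ⟨s, fun i => if i ∈ s then G i else univ, fun i => ?_, ?_, fun i hi => if_neg hi⟩
    · by_cases h : i ∈ s
      · simp only [if_pos h]; exact ⟨(h1 i h).1, x i, (h1 i h).2⟩
      · simp only [if_neg h]; exact ⟨isOpen_univ, x i, trivial⟩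
    · intro y hy
      refine h2 fun i hi => ?_
      have := hy i hi
      simp only [if_pos (show i ∈ s from hi)] at this
      exact this
  choose s G hG hGg hGu using hbox
  let t : Finset ι := Finset.univ.biUnion s
  obtain ⟨V, hV, hVx⟩ := hFH m (t.filter (· ∈ Ai)) G (fun i hi => (Finset.mem_filter.1 hi).2)
    (fun a i => hG a i)
  obtain ⟨n, hn⟩ := mem_iUnion.1 hV
  have hVn := (hF n).1 hn
  refine ⟨V, hV, fun W hW => ?_⟩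
  obtain ⟨a, rfl⟩ : ∃ a, g a = W := by rw [← hg] at hW; exact hW
  obtain ⟨x, hx, hx'⟩ := hVx a
  obtain ⟨y, hy, hy'⟩ := hA V ((h𝒰 n).1 V (h𝒱 n hVn)) Ai (h𝒱A n V hVn) t (G a) (hG a)
    ⟨x, hx, fun i hi hiA => hx' i (Finset.mem_filter.2 ⟨hi, hiA⟩)⟩
  exact ⟨y, hy, hGg a fun i hi => hy' i (Finset.mem_biUnion.2 ⟨a, Finset.mem_univ _, hi⟩)⟩

end Pool.Agent.W2helper37.DP
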