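import Pool.Agent.H42.Dom4
import Pool.Agent.H916R3.HFC.Delta

/-!
# Project DP (helper37): all powers `X ^ κ` and `S_1(D_Ω, D_Ω)`, `S_fin(D_Ω, D_Ω)` (MP_9098dd_gt)

Statements of the pieces, with proofs in the docstrings. `Sel True X` is `S_1(D_Ω, D_Ω)` and
`Sel False X` is `S_fin(D_Ω, D_Ω)` (`Pool.Agent.H42.Dom1`; `Sm b s`: `s` is finite, and a subsingleton
if `b`; `mk_dom` constructs `DOm`). Useful: `isOpen_pi_iff'`, `isOpen_pi_iff`, `isOpen_set_pi`,
`univ_pi_nonempty_iff`, `mem_closure_iff`, `dense_iff_inter_open`.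
-/

set_option autoImplicit false

namespace Pool.Agent.W2helper37.DP

open Set Pool.Agent.H42.Dom

universe u v

/-- `S_1(D, D)` if `b` is true and `S_fin(D, D)` if `b` is false. -/
def SelD (b : Prop) (X : Type u) [TopologicalSpace X] : Prop :=
  ∀ 𝒟 : ℕ → Set (Set X), (∀ n, (∀ U ∈ 𝒟 n, IsOpen U) ∧ Dense (⋃₀ 𝒟 n)) →
    ∃ F : ℕ → Set (Set X), (∀ n, F n ⊆ 𝒟 n ∧ Sm b (F n)) ∧ Dense (⋃₀ (⋃ n, F n))

/-- The countable chain condition. -/
def CCC (X : Type u) [TopologicalSpace X] : Prop :=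
  ∀ 𝒲 : Set (Set X), (∀ W ∈ 𝒲, IsOpen W ∧ W.Nonempty) → 𝒲.PairwiseDisjoint id → 𝒲.Countable

/-- Every finite collection of boxes with supports in `A` is met by one member of `𝒱`. -/
def Hits {X : Type u} [TopologicalSpace X] {ι : Type v} (A : Set ι) (𝒱 : Set (Set (ι → X))) : Prop :=
  ∀ (m : ℕ) (s : Finset ι) (G : Fin m → ι → Set X), (∀ i ∈ s, i ∈ A) →
    (∀ a i, IsOpen (G a i) ∧ (G a i).Nonempty) → ∃ V ∈ 𝒱, ∀ a, ∃ x ∈ V, ∀ i ∈ s, x i ∈ G a i

/-- Piece CCC (about 40 lines). `S_fin(D_Ω, D_Ω)` implies the countable chain condition.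
Proof. Suppose `𝒲` is not countable (in particular infinite). Let `O = (closure (⋃₀ 𝒲))ᶜ` and
`𝒰 = {⋃₀ F ∪ O | F ⊆ 𝒲 finite}`. `DOm 𝒰` (by `mk_dom`): members are open; `⋃₀ F ∪ O` is not dense: take
`W ∈ 𝒲 \ F`, it is open, nonempty and disjoint from `⋃₀ F` and from `O`; for finitely many nonempty
open `G`: if `G` meets `⋃₀ 𝒲` put one `W ∈ 𝒲` which meets `G` into `F`, otherwise `G` is
disjoint from `closure (⋃₀ 𝒲)`, so `G ⊆ O`. Apply `Sel False` to the constant sequence `𝒰`: `C = ⋃ n, F n` is a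
countable subset of `𝒰` with dense union. Every `W ∈ 𝒲` meets some `U = ⋃₀ F_U ∪ O ∈ C`, hence meets some
`W' ∈ F_U`, so `W = W' ∈ F_U`. So `𝒲` is contained in the countable union of the finite sets `F_U`. -/
def P_CCC : Prop := ∀ {X : Type u} [TopologicalSpace X], Sel False X → CCC X

/-- Piece PCC (about 60 lines). The countable chain condition of all finite powers implies the one of
all powers. Proof. Let `𝒲` be as in `CCC (ι → X)`, not countable. For `W ∈ 𝒲` choose `x ∈ W`, a finite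
`s W` and open `G W i ∋ x i` with `{y | ∀ i ∈ s W, y i ∈ G W i} ⊆ W` (`isOpen_pi_iff`). By
`Pool.Agent.H916R3.HFC.delta_system s 𝒲` there is an uncountable `J' ⊆ 𝒲` and `R : Finset ι` with
`R ⊆ s W` and `s W ∩ s W' ⊆ R` for `W ≠ W'` in `J'`. For `W ≠ W'` in `J'` there is `i ∈ R` with `G W i` and
`G W' i` disjoint (otherwise build a common point of `W` and `W'`: on `R` points of `G W i ∩ G W' i`, on
`s W \ R` the point `x_W`, elsewhere `x_W'`). With `e : Fin k ≃ R` the sets
`univ.pi fun j => G W (e j)`, `W ∈ J'`, are open, nonempty and pairwise disjoint in `Fin k → X`, and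
`W ↦` this set is injective on `J'` (disjoint nonempty sets are different), so `J'` is
countable. -/
def P_PCC : Prop := ∀ {X : Type u} [TopologicalSpace X] {ι : Type v},
  (∀ k : ℕ, CCC (Fin k → X)) → CCC (ι → X)

/-- Piece SUP (about 70 lines). Open sets have essentially countable support. Proof. Let `𝒱` be a maximal
(`zorn_subset`) pairwise disjoint family of nonempty sets `bx t H = {x | ∀ i ∈ t, x i ∈ H i}` (`t : Finset ι`, `H i`
open) contained in `U`. It is countable by `CCC`; let `A` be the union of (chosen) supports `t`. If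
`x ∈ U` and `x i ∈ G i` for `i ∈ s ∩ A'`, then `U ∩ {y | ∀ i ∈ s, i ∈ A' → y i ∈ G i}` is open
and nonempty, contains a box `bx t' H'` around `x`, which meets some `V = bx t H ∈ 𝒱` by maximality, in a
point `y`. Change `y` at the coordinates `i ∈ s \ A'` into a point of `G i`: the new point is still in
`bx t H ⊆ U`, as `t ⊆ A ⊆ A'`. -/
def P_SUP : Prop := ∀ {X : Type u} [TopologicalSpace X] {ι : Type v}, CCC (ι → X) →
  ∀ U : Set (ι → X), IsOpen U → ∃ A : Set ι, A.Countable ∧ ∀ A' : Set ι, A ⊆ A' →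
    ∀ (s : Finset ι) (G : ι → Set X), (∀ i, IsOpen (G i) ∧ (G i).Nonempty) →
      (∃ x ∈ U, ∀ i ∈ s, i ∈ A' → x i ∈ G i) → ∃ x ∈ U, ∀ i ∈ s, x i ∈ G i

/-- Piece DD (about 60 lines). `S(D_Ω, D_Ω)` implies `S(D, D)`. Proof. Let `e : ℕ × ℕ ≃ ℕ` (`Nat.pairEquiv`).
`𝒲 n = {W | ∃ p (V : ℕ → Set X), (∀ j < p, V j ∈ 𝒟 (e (n, j))) ∧ W = ⋃ j < p, V j}`. Case 1: some
`W ∈ 𝒲 n` has `univ ⊆ closure W`: take `F (e (n, j)) = {V j}` for `j < p` and `∅` otherwise.
Case 2: no such `W`. Then `DOm (𝒲 n)` (`mk_dom`; finitely many nonempty open `G_0, ..., G_{p-1}`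
(`Set.Finite.fin_param`): choose `V j ∈ 𝒟 (e (n, j))` which meets `G_j`, as `⋃₀ 𝒟` is dense). By `Sel b` there
are `F' n ⊆ 𝒲 n`. For `W ∈ F' n` choose `p W`, `V W`; let
`F (e (n, j)) = (fun W => V W j) '' {W ∈ F' n | j < p W}`. Every nonempty open `G` meets some `W ∈ F' n`, so some
`V W j`. -/
def P_DD : Prop := ∀ {b : Prop} {X : Type u} [TopologicalSpace X], Sel b X → SelD b X

/-- Piece NEGD (about 60 lines, mostly a copy of `Pool.Agent.H42.Dom.not_sq` in `Pool/Agent/H42/Dom4.lean`):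
take `𝒟 n = bx '' P`; its union is dense by `dn`, and no countable subfamily has dense
union by `nd` (choose a countable `Z ⊆ P` with `bx '' Z = ⋃ n, F n`). -/
def P_NEGD : Prop := ∀ {T : Type} [PartialOrder T], FreeSuslin T →
  letI := top T; ¬ SelD False (Fin 2 → Flag T)

/-- Piece OPM (about 30 lines). Projections to finitely many coordinates are open maps. Proof: let `x ∈ U` and
let `{y | ∀ i ∈ s, y i ∈ G i} ⊆ U` be a box around `x` (`isOpen_pi_iff`). Then
`{z | ∀ j, e j ∈ s → z j ∈ G (e j)}` is an open neighbourhood of the image of `x` inside the image of `U`: for `z` in it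
the point `y` with `y (e j) = z j` and `y i = x i` off the range of `e` (`Function.extend e z x`) is
in the box. -/
def P_OPM : Prop := ∀ {X : Type u} [TopologicalSpace X] {ι : Type v} {k : ℕ} (e : Fin k → ι),
  Function.Injective e → ∀ U : Set (ι → X), IsOpen U →
    IsOpen ((fun (x : ι → X) (j : Fin k) => x (e j)) '' U)

/-- Piece TA (about 120 lines, KEY; `theorem p_ta : P_OPM → P_TA`). Selection for countably many coordinates.
Proof. The type `Σ k, {e : Fin k → ι // Injective e ∧ ∀ j, e j ∈ A}` is countable and nonempty;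
let `σ` be a surjection from `ℕ` to it, and `c : ℕ × ℕ ≃ ℕ`. Fix `m`, `σ m = (k, e)`, and let
`π x = fun j => x (e j)`. Case 1: for some `j`, some `V ∈ 𝒱 (c (m, j))` has `univ ⊆ closure (π '' V)`: take
`F (c (m, j)) = {V}` and `∅` for the other `j`. Case 2: otherwise
`𝒲 j = (π '' ·) '' 𝒱 (c (m, j))` satisfies `DOm` (`mk_dom`; open by `P_OPM`; finitely many nonempty open subsets of
`Fin k → X` contain boxes `univ.pi`, use `Hits` with `s = Finset.univ.map ⟨e, _⟩` and
`G a i =` the side of the box if `i = e j`, `univ` otherwise); `Sel b` gives `F' j ⊆ 𝒲 j`; choose preimages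
`V_W`, `W ∈ F' j`, and let `F (c (m, j))` be their set. `Hits A (⋃ n, F n)`: given boxes with
support `s ⊆ A`, take `m` with `σ m = (k, e)`, `e` an enumeration of `s` (`Finset.equivFin`): in case 1 the
dense open image meets all the (projected) boxes, in case 2 some `W` meets them all. -/
def P_TA : Prop := ∀ {b : Prop} {X : Type u} [TopologicalSpace X] {ι : Type v},
  (∀ k : ℕ, Sel b (Fin k → X)) → ∀ A : Set ι, A.Countable →
    ∀ 𝒱 : ℕ → Set (Set (ι → X)), (∀ n, ∀ V ∈ 𝒱 n, IsOpen V) → (∀ n, Hits A (𝒱 n)) →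
      ∃ F : ℕ → Set (Set (ι → X)), (∀ n, F n ⊆ 𝒱 n ∧ Sm b (F n)) ∧ Hits A (⋃ n, F n)

end Pool.Agent.W2helper37.DP
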