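import Pool.Agent.W2helper37.DP.Stm
import Pool.Agent.H30.DiaA
import Pool.Agent.H57.AroDefs

/-!
# Project DP, part 2 (helper37): diamond gives a free Suslin tree, Martin's axiom excludes it

`Pool.Agent.H30.Dia.exists_tr (h : Diamond) (sp : Prop) : ∃ t, Tr sp t` (`Pool/Agent/H30/DiaA.lean`) gives a tree of
nodes `Nd = W1 × ℕ` (level, number) with the preorder `Le t`. We use `sp = False`. Lemmas: `Le.refl`, `Le.trans`,
fields `R`, `S`, `E`, `G` of `Tr` (the hypotheses `sp → ...` are then trivial: `False.elim`), `cnt_below`,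
`Pool.Agent.H30.Spl.W1_bdd`, `W1_Iio`. Two nodes below a common node are comparable, and
`Le t x z`, `Le t y z`, `x.1 ≤ y.1` imply `Le t x y` (one line).
-/

set_option autoImplicit false

namespace Pool.Agent.W2helper37.DP

open Set Pool.Agent.H42.Dom Pool.Agent.H30.Dia

/-- The tuple `y` is decided by `A`: if it is above `r`, then it is above a member of `A` or it is
incomparable (at some coordinate) with every member of `A`. -/
def Dcd (t : Lv) {n : ℕ} (r : Fin n → Nd) (A : Set (Fin n → Nd)) (y : Fin n → Nd) : Prop :=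
  (∀ i, Le t (r i) (y i)) → (∃ a ∈ A, ∀ i, Le t (a i) (y i)) ∨
    ∀ a ∈ A, ∃ i, ¬ Le t (a i) (y i) ∧ ¬ Le t (y i) (a i)

/-- Piece DEC (about 80 lines). Proof. First extend every `x ∈ u` (field `E`) to a node `e x` of level at
least all the levels of the `r i`. Then for every finite set `s` of functions `τ : Fin n → Nd` (with values in `u`) there is
`e' ≥ e` (pointwise for `Le t`, on `u`) with `Dcd t r A (fun i => e' (τ i))` for all `τ ∈ s`, by induction on
`s` (take all `τ : Fin n → u` at the end, `d = u.image e'`): `Dcd` is preserved when `y` grows, if the levels of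
`y i` are `≥ (r i).1` (nodes below a common node are comparable; being above `a`, and being
incomparable with `a`, are preserved). For a new `τ`: if not `∀ i, Le t (r i) (e (τ i))`, nothing to do. Otherwise `τ` is
injective (if `τ i = τ j` then `r i`, `r j` are below a common node, hence comparable, so `i = j`). If every
`a ∈ A` is incomparable at some coordinate with `e ∘ τ`, nothing to do; otherwise some `a ∈ A` is
comparable with `e (τ i)` at all `i`: replace `e (τ i)` by `a i` whenever `Le t (e (τ i)) (a i)`. -/
def P_DEC : Prop := ∀ t : Lv, Tr False t → ∀ (n : ℕ) (r : Fin n → Nd),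
  (∀ i j, i ≠ j → ¬ Le t (r i) (r j)) → ∀ A : Set (Fin n → Nd), (∀ a ∈ A, ∀ i, Le t (r i) (a i)) →
    ∀ u : Finset Nd, ∃ d : Finset Nd, (∀ x ∈ d, ∀ i, (r i).1 ≤ x.1) ∧
      (∀ y : Fin n → Nd, (∀ i, y i ∈ d) → Dcd t r A y) ∧ ∀ x ∈ u, ∃ y ∈ d, Le t x y

/-- Piece FREE (about 40 lines; `theorem p_free : P_DEC → P_FREE`). Proof. Apply the field `G` of `Tr` to the set `D` of
all `d` as in `P_DEC`; it gives `δ`. Let `a ∈ A`. Extend each `a i` to `z i` with
`δ ≤ (z i).1` (field `E`), `Y = Finset.univ.image z`; there are `d ∈ D` with levels below `δ` and `x i ∈ d` with `Le t (x i) (z i)`.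
As `(r i).1 ≤ (x i).1` and `Le t (r i) (z i)`, `Le t (r i) (x i)`. As `x` is decided: if all members of
`A` are incomparable with `x` at a coordinate, apply this to `a`: contradiction (`a i` and `x i` are both below `z i`).
Otherwise `Le t (b i) (x i)` for all `i`, `b ∈ A`; then `b i`, `a i` are below `z i`, so `a = b`, and
`(a i).1 ≤ (x i).1 < δ`. So `A` is contained in the countable set of all `a` with `(a i).1 < δ`
(`cnt_below`, `Set.countable_univ_pi` or similar). -/
def P_FREE : Prop := ∀ t : Lv, Tr False t → ∀ (n : ℕ) (r : Fin n → Nd),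
  (∀ i j, i ≠ j → ¬ Le t (r i) (r j)) → ∀ A : Set (Fin n → Nd), (∀ a ∈ A, ∀ i, Le t (r i) (a i)) →
    (∀ a ∈ A, ∀ b ∈ A, a ≠ b → ∃ i, ¬ Le t (a i) (b i) ∧ ¬ Le t (b i) (a i)) → A.Countable

/-- Piece TREE (about 120 lines; `theorem p_tree : P_FREE → P_TREE`). Proof. Let `T` be the quotient of `Nd` by
`Le t x y ∧ Le t y x` (for instance the range of `e : Nd → W1 × (W1 → ℕ)`,
`e x = (x.1, fun ξ => if ξ ≤ x.1 then t x.1 x.2 ξ else 0)`, with `p ≤ q ↔ p.1 ≤ q.1 ∧ ∀ ξ ≤ p.1, p.2 ξ = q.2 ξ`), so
`e x ≤ e y ↔ Le t x y`, and `p < q` implies that the level of `p` is smaller. Well-founded; elements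
below a common one are comparable. Cones are uncountable (field `E`, `W1_bdd`). Products: `P_FREE`, with
representatives. Antichains: the case `n = 1` of `P_FREE` for each of the countably many roots `r = (⊥, k)` (field `R`; take
`β` minimal in `W1`); every node is above a root. Chains: for `c` in a chain `C`, `c = e (α, k)`, field `S` with
`v = t α k α + 1` gives `l` such that `c' = e (α, l)` agrees with `c` below `α` and differs from `c` at `α`. The `c'` are
an antichain (for `c < d` in `C` of levels `α < β`, `c'` differs from `c`, so from `d` and from `d'`, at `α`),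
and `c ↦ c'` is injective, so `C` is countable. -/
def P_TREE : Prop := (∃ t : Lv, Tr False t) → ∃ (T : Type) (_ : PartialOrder T), FreeSuslin T

/-- Piece MAS (about 80 lines). Martin's axiom (`Pool.Agent.H57.Aro.MA1`) excludes Suslin trees. Proof. Let `T` be a free Suslin tree.
The rank `rk = IsWellFounded.rank (· < ·) : T → Ordinal` is strictly monotone, and `rk t < ω₁` since `Iio t` is
countable. `{t | rk t = α}` is an antichain, so countable, hence `{t | rk t < α}` is countable for `α < ω₁`. So for every
`s` and `α < ω₁` there is `t ≥ s` with `α ≤ rk t` (the cone of `s` is uncountable). Apply `MA1` to `P = Tᵒᵈ`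
(elements with a common upper bound in `T` are comparable, so `P` is ccc) and the dense sets `{t | α ≤ rk t}`, `α < ω₁`
(at most `ℵ₁` many): the filter `G` is a chain in `T`, so countable, but it contains elements of rank `≥ α`
for all `α < ω₁`: contradiction (a countable set of ordinals below `ω₁` is bounded). -/
def P_MAS : Prop := Pool.Agent.H57.Aro.MA1 → ¬ ∃ (T : Type) (_ : PartialOrder T), FreeSuslin T

end Pool.Agent.W2helper37.DP
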